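import Mathlib

set_option autoImplicit false

namespace Pool.Agent.Results.MP_8cf907_al.Classical

open Finset Equiv

universe u

section
variable {V E B : Type*} [Fintype V] [DecidableEq V] [Fintype E] [Ring B] [StarRing B]

/-- A magic unitary: the entries are projections and all rows and columns sum to `1`. -/
def IsMagic (u : Matrix E E B) : Prop :=
  (∀ i j, IsStarProjection (u i j)) ∧ (∀ i, ∑ j, u i j = 1) ∧ ∀ j, ∑ i, u i j = 1

/-- The incidence matrix of `s : E → 𝒫(V)`. -/
def inc (B : Type*) [Ring B] (s : E → Finset V) : Matrix V E B :=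
  fun v e => if v ∈ s e then 1 else 0

/-- The defining relations of the quantum automorphism group of the hypergraph `(V, E, s, r)`. -/
def Rel (s r : E → Finset V) (u : Matrix V V B) (w : Matrix E E B) : Prop :=
  IsMagic u ∧ IsMagic w ∧ inc B s * w = u * inc B s ∧ inc B r * w = u * inc B r

/-- The permutation matrix coefficients of `S_V` acting on `V`. -/
noncomputable def uStd (V : Type*) [DecidableEq V] : Matrix V V (Perm V → ℂ) :=
  fun v x σ => if σ x = v then 1 else 0

/-- The permutation matrix coefficients of `S_V` acting on the edges of the complete hypergraph. -/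
noncomputable def wStd (V : Type*) [DecidableEq V] :
    Matrix (Finset V × Finset V) (Finset V × Finset V) (Perm V → ℂ) :=
  fun e f σ => if (f.1.image σ, f.2.image σ) = e then 1 else 0

end

lemma orth {ι B : Type*} [Fintype ι] [CStarAlgebra B] {p : ι → B} (h : ∀ i, IsStarProjection (p i))
    (h1 : ∑ i, p i = 1) {i j : ι} (hij : i ≠ j) : p i * p j = 0 := by
  classical
  let := CStarAlgebra.spectralOrder B
  have := CStarAlgebra.spectralOrderedRing B
  have h2 : ∀ k, star (p k * p j) * (p k * p j) = p j * p k * p j := fun k => by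
    rw [star_mul, (h k).isSelfAdjoint.star_eq, (h j).isSelfAdjoint.star_eq, mul_assoc,
      ← mul_assoc (p k), (h k).isIdempotentElem.eq, mul_assoc]
  have h3 : ∑ k ∈ univ.erase j, star (p k * p j) * (p k * p j) = 0 := by
    simp only [h2, ← sum_mul, ← mul_sum, sum_erase_eq_sub (mem_univ j), h1, mul_sub, mul_one,
      (h j).isIdempotentElem.eq, sub_self, zero_mul]
  exact CStarRing.star_mul_self_eq_zero_iff _ |>.mp ((sum_eq_zero_iff_of_nonneg
    fun k _ => star_mul_self_nonneg _).mp h3 i (by simp [hij]))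

variable {V B : Type*} [Fintype V] [DecidableEq V] [CStarAlgebra B] {u : Matrix V V B}

lemma col {E : Type*} [Fintype E] {w : Matrix E E B} (hw : IsMagic w) {s : E → Finset V}
    (h : inc B s * w = u * inc B s) (v : V) (e f : E) :
    w e f * ∑ x ∈ s f, u v x = (if v ∈ s e then w e f else 0) ∧
    (∑ x ∈ s f, u v x) * w e f = if v ∈ s e then w e f else 0 := by
  classical
  have h1 := congrFun (congrFun h v) f
  simp only [Matrix.mul_apply, inc, mul_ite, mul_one, mul_zero, sum_ite_mem, univ_inter, ite_mul,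
    one_mul, zero_mul] at h1
  rw [← h1, mul_sum, sum_mul, sum_eq_single e, sum_eq_single e]
  · split_ifs <;> simp [(hw.1 e f).isIdempotentElem.eq]
  · exact fun b _ hb => by rw [ite_mul, orth (hw.1 · f) (hw.2.2 f) hb, zero_mul, ite_self]
  · simp
  · exact fun b _ hb => by rw [mul_ite, orth (hw.1 · f) (hw.2.2 f) hb.symm, mul_zero, ite_self]
  · simp

variable {w : Matrix (Finset V × Finset V) (Finset V × Finset V) B}

lemma comm (h : Rel Prod.fst Prod.snd u w) (v x v' y : V) : u v x * u v' y = u v' y * u v x := by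
  have h1 := fun e => col h.2.1 h.2.2.1 v e ({x}, {y})
  have h2 := fun e => col h.2.1 h.2.2.2 v' e ({x}, {y})
  simp only [sum_singleton] at h1 h2
  rw [← mul_one (u v x), ← mul_one (u v' y * _), mul_one (u v x), ← mul_one (u v x * _),
    ← h.2.1.2.2 ({x}, {y}), mul_sum, mul_sum]
  refine sum_congr rfl fun e _ => ?_
  rw [mul_assoc, mul_assoc, (h1 e).2, (h2 e).2]
  split_ifs <;> simp [*]

open scoped IsMulCommutative in
lemma exists_proj (hu : IsMagic u) (hc : ∀ v x v' y, u v x * u v' y = u v' y * u v x) :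
    ∃ p : Perm V → B, (∀ σ, IsSelfAdjoint (p σ)) ∧ ∑ σ, p σ = 1 ∧
      (∀ σ τ, p σ * p τ = if σ = τ then p σ else 0) ∧
      ∀ v x σ, u v x * p σ = if σ x = v then p σ else 0 := by
  let S := Algebra.adjoin ℂ (Set.range fun z : V × V => u z.1 z.2)
  have : IsMulCommutative S := Algebra.isMulCommutative_adjoin ℂ (by
    rintro _ ⟨a, rfl⟩ _ ⟨b, rfl⟩; exact hc ..)
  let U : V → V → S := fun v x => ⟨u v x, Algebra.subset_adjoin ⟨(v, x), rfl⟩⟩
  let q : (V → V) → S := fun g => ∏ x, U (g x) x
  have h1 : ∀ v x g, U v x * q g = if g x = v then q g else 0 := fun v x g => by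
    simp only [q, ← mul_prod_erase _ _ (mem_univ x), ← mul_assoc]
    split_ifs with h
    · rw [h, show U v x * U v x = U v x from Subtype.ext (hu.1 v x).isIdempotentElem.eq]
    · rw [show U v x * U (g x) x = 0 from Subtype.ext (orth (hu.1 · x) (hu.2.2 x) (Ne.symm h)),
        zero_mul]
  refine ⟨fun σ => q σ, fun σ => prod_induction _ (fun z : S => IsSelfAdjoint (z : B))
    (fun a b ha hb => (IsSelfAdjoint.commute_iff ha hb).mp (congrArg Subtype.val (mul_comm a b)))
    (.one _) fun x _ => (hu.1 _ x).isSelfAdjoint, ?_, fun σ τ => ?_, fun v x σ => ?_⟩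
  · rw [← AddSubmonoidClass.coe_finsetSum, sum_of_injOn (t := univ) (g := q) (fun σ : Perm V => σ)
      DFunLike.coe_injective.injOn (by simp) (fun g _ hg => ?_) fun _ _ => rfl,
      ← Fintype.piFinset_univ, ← prod_univ_sum (f := fun x v => U v x), prod_eq_one fun x _ => Subtype.ext (by
        simpa [U] using hu.2.2 x)]
    · rfl
    obtain ⟨x, y, e, hxy⟩ := Function.not_injective_iff.mp fun h => hg
      ⟨ofBijective g (Finite.injective_iff_bijective.mp h), by simp, rfl⟩
    have h2 := h1 (g x) x g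
    have h3 := h1 (g x) y g
    rw [if_pos (by simp [e])] at h2 h3
    rw [← h2, ← h3, ← mul_assoc, show U (g x) x * U (g x) y = 0 from
      Subtype.ext (orth (hu.1 _) (hu.2.1 _) hxy), zero_mul]
  · rw [← Subalgebra.coe_mul]
    split_ifs with h
    · simp only [h, q, ← prod_mul_distrib]
      exact congrArg _ (prod_congr rfl fun x _ => Subtype.ext (hu.1 _ x).isIdempotentElem.eq)
    obtain ⟨x, hx⟩ := not_forall.mp (mt Equiv.ext h)
    have h2 := h1 (σ x) x σ
    rw [if_pos rfl] at h2
    rw [← h2, mul_comm (U _ _), mul_assoc, h1, if_neg (Ne.symm hx), mul_zero]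
    rfl
  · have := congrArg Subtype.val (h1 v x σ)
    split_ifs at this ⊢ <;> exact this

lemma wp (h : Rel Prod.fst Prod.snd u w) {P : B} {σ : Perm V}
    (hp : ∀ v x, u v x * P = if σ x = v then P else 0) (e f : Finset V × Finset V) :
    w e f * P = if (f.1.image σ, f.2.image σ) = e then P else 0 := by
  have h1 : ∀ (s : Finset V × Finset V → Finset V), inc B s * w = u * inc B s → ∀ e,
      (s f).image σ ≠ s e → w e f * P = 0 := fun s hs e hne => by
    obtain ⟨v, hv⟩ := not_forall.mp (mt Finset.ext hne)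
    have h2 := (col h.2.1 hs v e f).1
    have h3 : (∑ x ∈ s f, u v x) * P = if v ∈ (s f).image σ then P else 0 := by
      simp [sum_mul, hp, apply_eq_iff_eq_symm_apply]
    by_cases h4 : v ∈ s e
    · rw [if_pos h4] at h2
      rw [← h2, mul_assoc, h3, if_neg (by tauto), mul_zero]
    · rw [if_neg h4] at h2
      rw [if_pos (by tauto)] at h3
      rw [← h3, ← mul_assoc, h2, zero_mul]
  have h2 : ∀ e, (f.1.image σ, f.2.image σ) ≠ e → w e f * P = 0 := fun e he =>
    (not_and_or.mp (mt Prod.ext_iff.mpr he)).elim (h1 _ h.2.2.1 e) (h1 _ h.2.2.2 e)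
  split_ifs with he
  · rw [← sum_eq_single (s := univ) (f := fun e => w e f * P) e
      (fun b _ hb => h2 b (he ▸ hb.symm)) (by simp), ← sum_mul, h.2.1.2.2, one_mul]
  · exact h2 e he

lemma magic_perm {X G : Type*} [Fintype X] [DecidableEq X] (a : G → Perm X) :
    IsMagic (B := G → ℂ) fun (v x : X) σ => if a σ x = v then 1 else 0 := by
  refine ⟨fun i j => ⟨funext fun σ => ?_, funext fun σ => ?_⟩, fun i => funext fun σ => ?_,
    fun i => funext fun σ => by simp⟩
  · by_cases h : a σ j = i <;> simp [h]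
  · by_cases h : a σ j = i <;> simp [h]
  · simp [apply_eq_iff_eq_symm_apply]

/-- The quantum automorphism group of the complete hypergraph on `V` is the classical group `S_V`;
it differs from `S_V⁺` as soon as `|V| ≥ 4`. -/
theorem result (V : Type) [Fintype V] [DecidableEq V] :
    Rel Prod.fst Prod.snd (uStd V) (wStd V) ∧
    (∀ (B : Type u) [CStarAlgebra B] (u : Matrix V V B) (w : Matrix _ _ B),
      Rel Prod.fst Prod.snd u w →
        ∃! φ : (Perm V → ℂ) →⋆ₐ[ℂ] B, (uStd V).map φ = u ∧ (wStd V).map φ = w) ∧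
    (4 ≤ Fintype.card V → ∀ (C : Type u) [CStarAlgebra C] (u : Matrix V V C), IsMagic u →
      (∀ (B : Type) [CStarAlgebra B] (u' : Matrix V V B), IsMagic u' →
        ∃ φ : C →⋆ₐ[ℂ] B, u.map φ = u') → ¬ ∃ w, Rel Prod.fst Prod.snd u w) := by
  refine ⟨⟨magic_perm id, ?_, ?_, ?_⟩, fun B _ u w h => ?_, fun h4 C _ u _ hU ⟨w, h⟩ => ?_⟩
  · convert magic_perm fun σ : Perm V => σ.finsetCongr.prodCongr σ.finsetCongr using 4
    simp [wStd, map_eq_image, Prod.map]
  · ext v f σ
    simp [Matrix.mul_apply, inc, wStd, uStd, ite_apply, apply_eq_iff_eq_symm_apply, -ite_mul]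
  · ext v f σ
    simp [Matrix.mul_apply, inc, wStd, uStd, ite_apply, apply_eq_iff_eq_symm_apply, -ite_mul]
  · obtain ⟨p, h1, h2, h3, h4⟩ := exists_proj h.1 (comm h)
    let φ : (Perm V → ℂ) →⋆ₐ[ℂ] B :=
      { toFun f := ∑ σ, f σ • p σ
        map_one' := by simpa using h2
        map_mul' f g := by simp [sum_mul, mul_sum, h3, smul_smul, mul_comm]
        map_zero' := by simp
        map_add' f g := by simp [add_smul, sum_add_distrib]
        commutes' c := by simp [← smul_sum, h2, Algebra.algebraMap_eq_smul_one]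
        map_star' f := by simp [(h1 _).star_eq] }
    have h5 : (uStd V).map φ = u := by
      ext v x
      rw [← mul_one (u v x), ← h2, mul_sum]
      exact sum_congr rfl fun σ _ => by simp [uStd, h4]
    refine ⟨φ, ⟨h5, ?_⟩, fun ψ hψ => StarAlgHom.ext fun f => ?_⟩
    · ext e f
      rw [← mul_one (w e f), ← h2, mul_sum]
      exact sum_congr rfl fun σ _ => by simp [wStd, wp h (h4 · · σ)]
    let T := AlgHom.equalizer (ψ : (Perm V → ℂ) →ₐ[ℂ] B) φ
    have : f = ∑ σ, f σ • ∏ x, uStd V (σ x) x := by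
      ext τ
      simp [uStd, prod_ite_zero, ← Equiv.ext_iff]
    exact (this ▸ T.sum_mem fun σ _ => T.smul_mem (T.prod_mem fun x _ =>
      congrFun (congrFun (hψ.1.trans h5.symm) _) _) _ : f ∈ T)
  obtain ⟨j⟩ := Function.Embedding.nonempty_of_card_le (α := Fin 4) (by simpa using h4)
  let := Matrix.instCStarAlgebra (n := Fin 2)
  let r : V → Matrix (Fin 2) (Fin 2) ℂ := fun v =>
    if v = j 0 ∨ v = j 1 then !![1, 0; 0, 0] else !![1 / 2, 1 / 2; 1 / 2, 1 / 2]
  let σ := swap (j 0) (j 1) * swap (j 2) (j 3)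
  have hr : ∀ v, IsStarProjection (r v) := fun v => by
    simp only [r]
    split_ifs <;> refine ⟨?_, ?_⟩ <;> ext a b <;> fin_cases a <;> fin_cases b <;>
      norm_num [Matrix.mul_apply, Fin.sum_univ_two]
  have hσ : ∀ v, r (σ.symm v) = r v := fun v => by
    simp only [r, symm_apply_eq, σ, Perm.mul_apply]
    simp [swap_apply_of_ne_of_ne, or_comm]
  obtain ⟨φ, hφ⟩ := hU _ (fun v x => (if v = x then r v else 0) + if σ v = x then 1 - r v else 0)
    ⟨fun v x => by
      dsimp only
      split_ifs
      exacts [by simp, by simpa using hr v, by simpa using (hr v).one_sub, by simp],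
    fun v => by simp [sum_add_distrib],
    fun x => by simp [sum_add_distrib, apply_eq_iff_eq_symm_apply, hσ]⟩
  have h1 := congrArg φ (comm h (j 0) (j 0) (j 2) (j 2))
  have h2 := fun v => congrFun (congrFun hφ v) v
  simp only [Matrix.map_apply] at h2
  rw [map_mul, map_mul, h2, h2] at h1
  simpa [σ, r, swap_apply_of_ne_of_ne] using congrFun (congrFun h1 0) 1

end Pool.Agent.Results.MP_8cf907_al.Classical
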